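import Pool.Agent.Y134.CH.Main

/-!
Semisimplicity of Frobenius on surfaces with an action of a finite group.

`S` is the set of points of a smooth projective surface `X` over an algebraic closure of a finite
field, `F` its Frobenius map, `G` a finite group acting on `X`, `V` the second cohomology of `X`
with the actions `φ` of Frobenius and `σ` of `G`, `W` the sum of the first and the third cohomology,
`c m` the contribution of the degrees `0` and `4`, `htr` the Lefschetz trace formula for the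
compositions of the iterates of Frobenius and the elements of `G`.

For a subgroup `K` of `G` and a character `χ ≠ 1` of `K` of `p`-power order let `U` be the open part
of `X / K` given by the points `x` with `χ` trivial on the stabilizer of `x`. The zeta function of
`U` modulo `p` gives the characteristic polynomial of Frobenius on the part `V^(K,χ)` of `V`
modulo `p`. A family of such pairs `(K, χ)`, for various primes `p`, such that each irreducible
representation `≠ 1` of `G` in `V` contains one of the characters `χ`, decides the semisimplicity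
of Frobenius on `V` relative to `V ^ G`, the second cohomology of `X / G`.
-/

set_option autoImplicit false

open Polynomial Pool.Agent.Y134.PG Pool.Agent.Y134.CH

namespace Pool.Agent.Results.MP_1fe969_ag.FiniteGroupActions

theorem result
    -- the action of the finite group on the points
    {G : Type} [Group G] [Finite G] {S : Type} [MulAction G S] (F : S → S)
    (hF : Function.Injective F) (hFG : ∀ (g : G) (x : S), F (g • x) = g • F x)
    (hfin : ∀ m, 1 ≤ m → Finite {x : S // F^[m] x = x})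
    -- the cohomology and the trace formula
    {E : Type} [Field E] [CharZero E] [IsAlgClosed E]
    {V : Type} [AddCommGroup V] [Module E V] [FiniteDimensional E V]
    {W : Type} [AddCommGroup W] [Module E W] [FiniteDimensional E W]
    (σ : Representation E G V) (φ : Module.End E V) (hφ : ∀ g, φ * σ g = σ g * φ)
    (τ : Representation E G W) (ψ : Module.End E W) (hψ : ∀ g, ψ * τ g = τ g * ψ)
    (c : ℕ → E)
    (htr : ∀ m, 1 ≤ m → ∀ g : G, (Nat.card {x : S // F^[m] x = g • x} : E)
      = c m + LinearMap.trace E V (σ g * φ ^ m) - LinearMap.trace E W (τ g * ψ ^ m))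
    -- the pairs of a subgroup and a character of prime power order
    {ι : Type} (p s : ι → ℕ) (hp : ∀ i, (p i).Prime) (K : ι → Subgroup G)
    (χ : ∀ i, K i →* Eˣ) (hχ : ∀ i k, χ i k ^ p i ^ s i = 1) (hχ1 : ∀ i, χ i ≠ 1)
    (hdet : ∀ R : Submodule E V, R ≠ ⊥ → (∀ g, ∀ v ∈ R, σ g v ∈ R) →
      (R ⊓ σ.invariants : Submodule E V) = ⊥ →
        ∃ i, (R ⊓ charPart σ (K i) (χ i) : Submodule E V) ≠ ⊥)
    -- the zeta functions
    (μ : ι → E) (hμ : ∀ i, IsPrimitiveRoot (μ i) (p i ^ s i))
    (P₁ P₂ : ι → ℤ[X]) (P₃ : ι → ℤ[X][X]) (hP₁ : ∀ i, (P₁ i).coeff 0 = 1)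
    (hP₂ : ∀ i, (P₂ i).coeff 0 = 1) (B₁ B₂ : ι → Multiset E)
    (hB₁ : ∀ i, (P₁ i).map (Int.castRingHom E) = ((B₁ i).map fun x => 1 - C x * X).prod)
    (hB₂ : ∀ i, (P₂ i).map (Int.castRingHom E) = ((B₂ i).map fun x => 1 - C x * X).prod)
    (hP₃ : ∀ i, (P₃ i).map (evHom (μ i)) = zpoly (onPart τ ψ hψ (K i) (χ i)))
    (hN : ∀ i m, 1 ≤ m → (goodOrbits (χ i) F m : E)
      = ((B₁ i).map fun x => x ^ m).sum - ((B₂ i).map fun x => x ^ m).sum)
    (H : ∀ i, (ZMod (p i))[X])
    (hH : ∀ i, H i * (P₂ i).map (Int.castRingHom (ZMod (p i)))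
      = (P₁ i).map (Int.castRingHom (ZMod (p i))) * (P₃ i).map (redHom (ZMod (p i)))) :
    -- squarefree reductions: all eigenvalues
    ((∀ i, Squarefree (H i) ∧ (H i).natDegree = Module.finrank E (charPart σ (K i) (χ i))) →
      (∀ i, ∀ α : E,
        Module.finrank E ((onPart σ φ hφ (K i) (χ i)).maxGenEigenspace α) ≤ 1) ∧
      (∀ α : E, φ.maxGenEigenspace α = φ.eigenspace α ↔
        (φ.maxGenEigenspace α ⊓ σ.invariants : Submodule E V) ≤ φ.eigenspace α) ∧
      ((∀ α : E, (φ.maxGenEigenspace α ⊓ σ.invariants : Submodule E V) ≤ φ.eigenspace α) →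
        φ.IsSemisimple)) ∧
    -- the Tate eigenvalues over the extension of degree `n`
    (∀ Q n : ℕ, Q ≠ 0 → 1 ≤ n →
      (∀ i M, M ∣ n → ¬ p i ∣ M → ¬ cyc (ZMod (p i)) (Q : ZMod (p i)) M ^ 2 ∣ H i) →
      ∀ α : E, α ^ n = (Q : E) ^ n → (φ.maxGenEigenspace α = φ.eigenspace α ↔
        (φ.maxGenEigenspace α ⊓ σ.invariants : Submodule E V) ≤ φ.eigenspace α)) := by
  have key : ∀ α : E, (∀ i, Module.finrank E ((onPart σ φ hφ (K i) (χ i)).maxGenEigenspace α) ≤ 1) →
      (φ.maxGenEigenspace α = φ.eigenspace α ↔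
        (φ.maxGenEigenspace α ⊓ σ.invariants : Submodule E V) ≤ φ.eigenspace α) := by
    intro α h1
    constructor
    · intro h
      rw [h]
      exact inf_le_left
    · exact transfer σ φ hφ K χ hdet α h1
  refine ⟨fun hsq => ?_, fun Q n hQ hn he α hα => ?_⟩
  · have h1 : ∀ i, ∀ α : E,
        Module.finrank E ((onPart σ φ hφ (K i) (χ i)).maxGenEigenspace α) ≤ 1 := fun i α =>
      mult_one (hp i) hF hFG hfin σ φ hφ τ ψ hψ c htr (K i) (χ i) (hχ i) (hχ1 i) (hμ i) (P₁ i)
        (P₂ i) (P₃ i) (hP₁ i) (hP₂ i) (B₁ i) (B₂ i) (hB₁ i) (hB₂ i) (hP₃ i) (hN i) (H i) (hH i)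
        (hsq i).1 (hsq i).2 α
    refine ⟨h1, fun α => key α fun i => h1 i α, fun h0 => ?_⟩
    exact semisimple_of φ fun α => (key α fun i => h1 i α).2 (h0 α)
  · refine key α fun i => ?_
    exact mult_le (hp i) hF hFG hfin σ φ hφ τ ψ hψ c htr (K i) (χ i) (hχ i) (hχ1 i) (hμ i) (P₁ i)
      (P₂ i) (P₃ i) (hP₁ i) (hP₂ i) (B₁ i) (B₂ i) (hB₁ i) (hB₂ i) (hP₃ i) (hN i) (H i) (hH i)
      hQ hn (e := 1) (he i) hα

end Pool.Agent.Results.MP_1fe969_ag.FiniteGroupActions
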