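import Mathlib
import Pool.Agent.W534.FS4
import Pool.Agent.Y146.HW.Recip
import Pool.Agent.Y146.HW.EndL

/-!
# Semisimplicity of Frobenius on `H²` of surfaces from the Hasse-Witt matrix

Let `X` be a smooth projective surface over the field with `q = p^a` elements, of any geometric genus `p_g`, `P` the
characteristic polynomial of the Frobenius on `H²`, `s` the number of its unit roots (`X` is
ordinary if `s = p_g`). Modulo `p` it is divisible by `T^(b₂ - p_g)`; the quotient `W` is the Hasse-Witt polynomial,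
in general the characteristic polynomial of the Frobenius on `H²(X, 𝓞_X)` (Katz's congruence formula, for torsion
free crystalline cohomology). If `W` has no multiple roots, and `a = 1` or `W(0) ≠ 0`, then all eigenvalues
which are not `q` times a root of unity are simple. If moreover `b₂ ≤ ρ(X̄) + 2 s + 2`, the Frobenius is semisimple on
`H²`, over all finite extensions. For ordinary `X` this inequality says that `h^{1,1} ≤ ρ(X̄) + 2`.
-/

set_option autoImplicit false

open Polynomial Module W534.FS

namespace Pool.Agent.Results.MP_1fe969_ag.HasseWittMatrix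

variable {p a : ℕ} {K V : Type*} [Field K] [AddCommGroup V] [Module K V] [Module.Finite K V]

/-- The number of unit roots of `P`: the number of nonzero roots of `P` modulo `p`, with multiplicities. -/
noncomputable def unitRoots (X : SurfaceH2 p a K V) : ℕ :=
  X.P.natDegree - (X.P.map (Int.castRingHom (ZMod p))).natTrailingDegree

/-- The nonzero roots of `P` modulo `p` have multiplicity at most `m`. -/
def ModPMult [Fact p.Prime] (X : SurfaceH2 p a K V) (m : ℕ) : Prop :=
  ∀ ρ : AlgebraicClosure (ZMod p), ρ ≠ 0 →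
    rootMultiplicity ρ (X.P.map (Int.castRingHom (AlgebraicClosure (ZMod p)))) ≤ m

/-- `W` is the Hasse-Witt polynomial: `P = T^(b₂ - p_g) W` modulo `p`. -/
def IsHasseWitt (X : SurfaceH2 p a K V) (W : (ZMod p)[X]) : Prop :=
  X.P.map (Int.castRingHom (ZMod p)) = Polynomial.X ^ (X.P.natDegree - X.pg) * W

/-- The nonzero roots of `P` modulo `p` are simple and `a (p_g - s) ≤ 1`, `s` the number of unit roots. -/
def Simple [Fact p.Prime] (X : SurfaceH2 p a K V) : Prop :=
  ModPMult X 1 ∧ a * (X.pg - unitRoots X) ≤ 1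

/-- **Semisimplicity of Frobenius on `H²` from the Hasse-Witt matrix.** -/
theorem result [Fact p.Prime] (ha : 0 < a) [CharZero K] [IsAlgClosed K] (X : SurfaceH2 p a K V)
    (hpg : X.pg ≤ X.P.natDegree) :
    -- multiplicities and sizes of Jordan blocks of the eigenvalues which are not Tate eigenvalues
    (∀ m, ModPMult X m → ∀ α, ¬ IsTate p a α →
      X.mult α ≤ max m (a * (X.pg - unitRoots X)) ∧
      ∀ x ∈ X.F.maxGenEigenspace α,
        ((X.F - α • (1 : Module.End K V)) ^ (max m (a * (X.pg - unitRoots X)))) x = 0) ∧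
    (∀ Z : Finset K, (∀ z ∈ Z, X.F.HasEigenvalue z ∧ ¬ IsTate p a z) →
      (∀ z ∈ Z, ∀ z' ∈ Z, minpoly ℤ z = minpoly ℤ z' → z = z') →
      ∑ z ∈ Z, X.mult z ≤ unitRoots X + a * (X.pg - unitRoots X)) ∧
    -- separable Hasse-Witt polynomials
    (∀ W, IsHasseWitt X W → W.Separable → (a = 1 ∨ W.coeff 0 ≠ 0) → Simple X) ∧
    -- all eigenvalues which are not Tate eigenvalues are simple, over all finite extensions `F` is
    -- semisimple at them, and there the endomorphisms commuting with `F` are the polynomials in `F`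
    (Simple X →
      (∀ α, ¬ IsTate p a α → X.mult α ≤ 1) ∧
      (∀ n, 0 < n → ∀ β, ¬ IsTate p (a * n) β →
        (X.F ^ n).maxGenEigenspace β = (X.F ^ n).eigenspace β) ∧
      (∀ s : Finset K, (∀ α ∈ s, ¬ IsTate p a α) → ∀ T : Module.End K V,
        Commute T X.F → ∃ Q : K[X], ∀ x ∈ ⨆ α ∈ s, X.F.maxGenEigenspace α, T x = aeval X.F Q x)) ∧
    -- semisimplicity on `H²`
    (Simple X → (finrank K V ≤ finrank K X.N + 2 * unitRoots X + 2 ∨ X.FewTate ∨ X.SmallDefect) →
      ∀ n, 0 < n → ∀ β, (X.F ^ n).maxGenEigenspace β = (X.F ^ n).eigenspace β) := by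
  classical
  have hp : p.Prime := Fact.out
  have hPm : X.P.Monic := X.monic
  have hus : unitRoots X = Y146.HW.ur p X.P := rfl
  have hule : unitRoots X ≤ X.pg := by
    have h1 := td_ge hp ha hPm X.newton_hodge
    have h2 := td_le hp hPm
    unfold unitRoots
    unfold td at h1 h2
    omega
  have ha1 : a * (X.pg - unitRoots X) + a * unitRoots X = a * X.pg := by
    rw [← mul_add, Nat.sub_add_cancel hule]
  have hA : ∀ m, ModPMult X m → ∀ α, ¬ IsTate p a α →
      X.mult α ≤ max m (a * (X.pg - unitRoots X)) := by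
    intro m hm α hα
    rcases Nat.eq_zero_or_pos (X.mult α) with h0 | h0
    · rw [h0]; exact Nat.zero_le _
    have he := X.eigenvalue_of_mult h0
    rcases Y146.HW.mult_le hPm (X.root he) (X.notInt hp he hα) X.newton_hodge with ⟨ρ, hρ, h1⟩ | h1
    · rw [X.mult_eq]
      exact (h1.trans (hm ρ hρ)).trans (le_max_left _ _)
    · rw [X.mult_eq]
      rw [← hus] at h1
      exact le_trans (by omega) (le_max_right _ _)
  have hB : Simple X → ∀ α, ¬ IsTate p a α → X.mult α ≤ 1 := by
    intro hs α hα
    exact (hA 1 hs.1 α hα).trans (max_le le_rfl hs.2)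
  refine ⟨fun m hm α hα => ⟨hA m hm α hα, Y146.HW.pow_kills X.F α (hA m hm α hα)⟩, ?_, ?_, ?_, ?_⟩
  · intro Z hZ hd
    have h1 := Y146.HW.sum_le' (a := a) (h := X.pg) hp hPm Z (fun z hz => X.root (hZ z hz).1) hd
      (fun z hz => X.notInt hp (hZ z hz).1 (hZ z hz).2) X.newton_hodge
    have e1 : ∑ z ∈ Z, X.mult z = ∑ z ∈ Z, mu X.P z :=
      Finset.sum_congr rfl fun z _ => X.mult_eq z
    rw [e1]
    rw [← hus] at h1
    omega
  · intro W hW hsep h1
    obtain ⟨h2, h3⟩ := Y146.HW.hw_sep (a := a) hPm hpg hW hsep h1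
    refine ⟨h2, ?_⟩
    rw [← hus] at h3
    omega
  · intro hs
    refine ⟨hB hs, ?_, ?_⟩
    · intro n hn β hβ
      apply Y146.HW.maxGen_pow_eq
      intro α hα
      apply X.ss_of_mult
      apply hB hs
      rintro ⟨m, hm, h⟩
      apply hβ
      refine ⟨m, hm, ?_⟩
      rw [← hα, ← pow_mul, mul_comm n m, pow_mul, h]
      ring
    · intro s hs' T hT
      exact Y146.HW.commutant X.F s (fun α hα => hB hs α (hs' α hα)) T hT
  · intro hs hw n hn β
    apply Y146.HW.maxGen_pow_eq
    intro α _
    by_cases hα : IsTate p a α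
    swap
    · exact X.ss_of_mult (hB hs α hα)
    rcases hw with hw | hw | hw
    · apply X.ss_tate hp _ hα
      intro m hm
      obtain ⟨S, h1, h2⟩ := Y146.HW.two_ur_le (K := K) (w := 2) hp ha two_pos hPm
        (fun z hz => by rw [X.weight z hz])
      have h3 := Y146.HW.dim_count X.F (((p : K) ^ a) ^ m) m S (by
        intro z hz h
        apply (h1 z hz).2
        have h4 : (z / (p : K) ^ a) ^ m = 1 := by
          rw [div_pow, h, div_self]
          exact pow_ne_zero _ (pow_ne_zero _ (by exact_mod_cast hp.ne_zero))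
        exact IsIntegral.of_pow hm (by rw [h4]; exact isIntegral_one))
      have e1 : ∑ z ∈ S, finrank K (X.F.maxGenEigenspace z) = ∑ z ∈ S, mu X.P z :=
        Finset.sum_congr rfl fun z _ => X.mult_eq z
      rw [e1] at h3
      rw [← hus] at h2
      omega
    · exact X.ss_tate hp hw hα
    · rcases hw α hα with h | ⟨h, h'⟩
      · exact X.ss_local hp hα h
      · exact X.ss_local_two hp h h'

end Pool.Agent.Results.MP_1fe969_ag.HasseWittMatrix
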