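import Mathlib
import Pool.Agent.W534.FS4
import Pool.Agent.Y218.NPDefs
import Pool.Agent.Y218.NPd

/-!
# Semisimplicity of Frobenius on `H²` of surfaces from the slopes less than one

Let `X` be a smooth projective surface over the field with `q = p^a` elements, of any geometric
genus, `P` the characteristic polynomial of the Frobenius `F` on `H²(X̄, ℚ̄_ℓ)`. The `p`-adic roots
of `P` of slope less than one are the eigenvalues of `F` on `H²(X, W𝒪_X) ⊗ ℚ`. We show that the
multiplicities of the `ℓ`-adic eigenvalues which are not `q` times a root of unity are the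
multiplicities of these `p`-adic eigenvalues, and bound them by the initial forms of `P` modulo `p`
on the sides of slope less than one of its Newton polygon; the side of slope one bounds the
multiplicities of the Tate eigenvalues.
-/

set_option autoImplicit false

open Polynomial Module W534.FS Pool.Agent.Y218.NP

namespace Pool.Agent.Results.MP_1fe969_ag.ResidualPolynomials

variable {p a : ℕ} {K V : Type*} [Field K] [AddCommGroup V] [Module K V] [Module.Finite K V]

/-- The `p`-adic roots of `P` of slope less than one, that is, the eigenvalues of the Frobenius on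
`H²(X, W𝒪_X) ⊗ ℚ`, have multiplicity at most `m`. -/
def SlopeMult [Fact p.Prime] (X : SurfaceH2 p a K V) (m : ℕ) : Prop :=
  ∀ β : PadicAlgCl p, ((p : ℝ) ^ a)⁻¹ < ‖β‖ →
    rootMultiplicity β (X.P.map (Int.castRingHom (PadicAlgCl p))) ≤ m

/-- **Semisimplicity of Frobenius on `H²` from the slopes less than one.** -/
theorem result [Fact p.Prime] [CharZero K] [IsAlgClosed K] (X : SurfaceH2 p a K V) :
    -- (1) transfer: the `ℓ`-adic multiplicities of the eigenvalues which are not Tate eigenvalues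
    -- are the multiplicities of the `p`-adic eigenvalues of slope less than one
    (∀ α, X.F.HasEigenvalue α → ¬ IsTate p a α → ∃ β : PadicAlgCl p, ((p : ℝ) ^ a)⁻¹ < ‖β‖ ∧
      X.mult α = rootMultiplicity β (X.P.map (Int.castRingHom (PadicAlgCl p)))) ∧
    (∀ m, SlopeMult X m ↔ ∀ α, ¬ IsTate p a α → X.mult α ≤ m) ∧
    (∀ m, SlopeMult X m → ∀ α, ¬ IsTate p a α → ∀ x ∈ X.F.maxGenEigenspace α,
      ((X.F - α • (1 : Module.End K V)) ^ m) x = 0) ∧
    -- (2) tests modulo `p`: residual polynomials, and lengths of the sides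
    (∀ m, ResMult p a X.P m → SlopeMult X m) ∧
    (∀ m, (∀ r s, Nat.Coprime r s → 0 < s → r < a * s → len p r s X.P ≤ m * s) →
      ResMult p a X.P m) ∧
    (∀ Z : Finset K, (∀ z ∈ Z, X.F.HasEigenvalue z ∧ ¬ IsTate p a z) →
      (∀ z ∈ Z, ∀ z' ∈ Z, minpoly ℤ z = minpoly ℤ z' → z = z') →
      ∑ z ∈ Z, X.mult z ≤ sides p a X.P) ∧
    -- (3) simple slopes less than one: over all finite extensions `F` is semisimple at all
    -- eigenvalues which are not Tate eigenvalues, and there the endomorphisms commuting with `F`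
    -- are the polynomials in `F`
    (SlopeMult X 1 →
      (∀ n, 0 < n → ∀ β, ¬ IsTate p (a * n) β →
        (X.F ^ n).maxGenEigenspace β = (X.F ^ n).eigenspace β) ∧
      (∀ s : Finset K, (∀ α ∈ s, ¬ IsTate p a α) → ∀ T : Module.End K V,
        Commute T X.F → ∃ Q : K[X], ∀ x ∈ ⨆ α ∈ s, X.F.maxGenEigenspace α, T x = aeval X.F Q x)) ∧
    -- (4) the Tate eigenvalues and the side of slope one; semisimplicity at `q`
    (∀ m, 0 < m → finrank K ((X.F ^ m).maxGenEigenspace (((p : K) ^ a) ^ m)) ≤ len p a 1 X.P) ∧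
    (∀ m, 0 < m → ∀ α : K, α ^ m = ((p : K) ^ a) ^ m → ∃ ρ : AlgebraicClosure (ZMod p),
      ρ ^ m = 1 ∧ X.mult α ≤ rootMultiplicity ρ
        ((side p a 1 X.P).map (algebraMap (ZMod p) (AlgebraicClosure (ZMod p))))) ∧
    (rootMultiplicity 1 (side p a 1 X.P) ≤ finrank K (X.NS ((p : K) ^ a)) + 2 →
      X.SemisimpleAt ((p : K) ^ a)) ∧
    -- (5) semisimplicity on `H²`, over all finite extensions
    (SlopeMult X 1 → (len p a 1 X.P ≤ finrank K X.N + 2 ∨ X.FewTate ∨ X.SmallDefect) →
      ∀ n, 0 < n → ∀ β, (X.F ^ n).maxGenEigenspace β = (X.F ^ n).eigenspace β) := by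
  classical
  have hp : p.Prime := Fact.out
  have hPm : X.P.Monic := X.monic
  have hroot0 : ∀ {L : Type _} [Field L] [CharZero L] (β : L), 0 < mu X.P β →
      eval₂ (Int.castRingHom L) β X.P = 0 := by
    intro L _ _ β h
    unfold mu at h
    have h1 := (rootMultiplicity_pos (hPm.map _).ne_zero).1 h
    rw [IsRoot, eval_map] at h1
    exact h1
  have hTr : ∀ α, X.F.HasEigenvalue α → ¬ IsTate p a α → ∃ β : PadicAlgCl p,
      ((p : ℝ) ^ a)⁻¹ < ‖β‖ ∧
      X.mult α = rootMultiplicity β (X.P.map (Int.castRingHom (PadicAlgCl p))) := by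
    intro α hα hT
    obtain ⟨β, h1, h2⟩ := exists_padic hPm (X.root hα) (X.notInt hp hα hT)
    exact ⟨β, h1, (X.mult_eq α).trans h2⟩
  have hle : ∀ m, SlopeMult X m → ∀ α, ¬ IsTate p a α → X.mult α ≤ m := by
    intro m hm α hT
    rcases Nat.eq_zero_or_pos (X.mult α) with h0 | h0
    · rw [h0]; exact Nat.zero_le _
    obtain ⟨β, h1, h2⟩ := hTr α (X.eigenvalue_of_mult h0) hT
    rw [h2]
    exact hm β h1
  have hge : ∀ m, (∀ α, ¬ IsTate p a α → X.mult α ≤ m) → SlopeMult X m := by
    intro m hm β hβ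
    rcases Nat.eq_zero_or_pos (mu X.P β) with h0 | h0
    · unfold mu at h0
      rw [h0]; exact Nat.zero_le _
    obtain ⟨α, h1, h2, h3⟩ := exists_nonTate (K := K) norm_p hPm hβ (hroot0 β h0)
    have h4 := hm α (by
      rintro ⟨n, hn, h⟩
      exact h3 n hn h)
    rw [X.mult_eq, ← h2] at h4
    exact h4
  have hRes : ∀ m, ResMult p a X.P m → SlopeMult X m := by
    intro m hm β hβ
    rcases Nat.eq_zero_or_pos (mu X.P β) with h0 | h0
    · unfold mu at h0
      rw [h0]; exact Nat.zero_le _
    exact mult_le_of_resMult hPm hm (hroot0 β h0) (not_int_of_norm norm_p hβ)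
  refine ⟨hTr, fun m => ⟨hle m, hge m⟩,
    fun m hm α hα => Y146.HW.pow_kills X.F α (hle m hm α hα), hRes,
    fun m hm => resMult_of_len hm, ?_, ?_, ?_, ?_, ?_, ?_⟩
  · intro Z hZ hd
    have e1 : ∑ z ∈ Z, X.mult z = ∑ z ∈ Z, mu X.P z :=
      Finset.sum_congr rfl fun z _ => X.mult_eq z
    rw [e1]
    exact sum_le_sides hp hPm Z (fun z hz => X.root (hZ z hz).1) hd
      (fun z hz => X.notInt hp (hZ z hz).1 (hZ z hz).2)
  · intro hs
    refine ⟨?_, ?_⟩
    · intro n hn β hβ
      apply Y146.HW.maxGen_pow_eq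
      intro α hα
      apply X.ss_of_mult
      apply hle 1 hs
      rintro ⟨m, hm, h⟩
      apply hβ
      refine ⟨m, hm, ?_⟩
      rw [← hα, ← pow_mul, mul_comm n m, pow_mul, h]
      ring
    · intro s hs' T hT
      exact Y146.HW.commutant X.F s (fun α hα => hle 1 hs α (hs' α hα)) T hT
  · intro m hm
    exact finrank_tate hp X.F X.charpoly_F hPm hm
  · intro m hm α hα
    rcases Nat.eq_zero_or_pos (X.mult α) with h0 | h0
    · exact ⟨1, one_pow _, by rw [h0]; exact Nat.zero_le _⟩
    obtain ⟨ρ, h1, h2⟩ := mult_tate hm hPm (X.root (X.eigenvalue_of_mult h0)) hα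
    exact ⟨ρ, h1, by rw [X.mult_eq]; exact h2⟩
  · intro h
    apply X.ss_local_two hp rfl
    refine le_trans ?_ h
    rcases Nat.eq_zero_or_pos (X.mult ((p : K) ^ a)) with h0 | h0
    · rw [h0]; exact Nat.zero_le _
    obtain ⟨ρ, h1, h2⟩ := mult_tate one_pos hPm (X.root (X.eigenvalue_of_mult h0)) rfl
    rw [pow_one] at h1
    subst h1
    rw [X.mult_eq]
    refine h2.trans (le_of_eq ?_)
    have h3 := (eq_rootMultiplicity_map (p := side p a 1 X.P)
      (algebraMap (ZMod p) (AlgebraicClosure (ZMod p))).injective (1 : ZMod p))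
    rw [map_one] at h3
    exact h3.symm
  · intro hs hw n hn β
    apply Y146.HW.maxGen_pow_eq
    intro α _
    by_cases hα : IsTate p a α
    swap
    · exact X.ss_of_mult (hle 1 hs α hα)
    rcases hw with hw | hw | hw
    · apply X.ss_tate hp _ hα
      intro m hm
      exact (finrank_tate hp X.F X.charpoly_F hPm hm).trans hw
    · exact X.ss_tate hp hw hα
    · rcases hw α hα with h | ⟨h, h'⟩
      · exact X.ss_local hp hα h
      · exact X.ss_local_two hp h h'

end Pool.Agent.Results.MP_1fe969_ag.ResidualPolynomials
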