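import Pool.Agent.Y212.ZS.Surf

/-!
# Semisimplicity of Frobenius on `H²` in families of surfaces: one closed fibre decides almost all

Let `S` be a geometrically connected normal scheme of finite type and dimension `d` over the field
with `q` elements and let `X ⟶ S` be a smooth projective family of surfaces. `D : FrobData G P`
records the fundamental group `G` of `S`, the closed points `P` of `S`, their degrees and Frobenius
elements and the Chebotarev density theorem. For `ℓ i` running through the primes different from the
characteristic, `ρ i` is the representation of `G` given by the lisse sheaf of the groups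
`H²(X_s, ℚ_ℓ)`, of rank `b`.

The hypotheses are theorems of Deligne: the restriction of `ρ i` to the geometric fundamental group
is semisimple, and the traces of the powers of the Frobenius elements are rational and do not depend
on `ℓ`.

Theorem. The following are equivalent.
1. For each `ℓ` there is a closed fibre on whose `H²` Frobenius is semisimple.
2. There is a closed fibre on whose `H²` Frobenius is semisimple for all `ℓ`.
3. The representations `ρ i` of the arithmetic fundamental group are semisimple.
4. The closed fibres for which, for all `ℓ`, Frobenius is semisimple on `H²` and each eigenvalue has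
   an eigenspace of the dimension prescribed by the zeta function (for the eigenvalue `q ^ deg s`:
   the order of the pole at `1`), have Dirichlet density one.
In particular these closed fibres have density one if for one closed fibre (which may depend
on `ℓ`) some power of Frobenius is scalar on `H²`, for example if the Picard number of one closed
fibre is `b`.
-/

namespace Pool.Agent.Results.MP_1fe969_ag.ZeroOneSurfaces

open Pool.Agent.Y138.ZO Pool.Agent.Y212.ZS

theorem result {G P : Type*} [Group G] [TopologicalSpace G] [IsTopologicalGroup G] [CompactSpace G]
    [TotallyDisconnectedSpace G] (D : FrobData G P) {L : Type*}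
    (ℓ : L → ℕ) [∀ i, Fact (ℓ i).Prime] (b : ℕ)
    (ρ : ∀ i : L, G →* Matrix (Fin b) (Fin b) ℚ_[ℓ i])
    (hρ : ∀ i, Continuous (ρ i))
    -- semisimplicity over the geometric fundamental group
    (hgeom : ∀ i, IsSemisimpleRep (ρ i) D.geom)
    -- rationality and independence of the prime
    (a : P → ℕ → ℚ) (ha : ∀ i s m, (ρ i (D.frob s) ^ m).trace = (a s m : ℚ_[ℓ i])) :
    List.TFAE [
      ∀ i, ∃ s, Semisimple (ρ i (D.frob s)),
      ∃ s, ∀ i, Semisimple (ρ i (D.frob s)),
      ∀ i, IsSemisimpleRep (ρ i) ⊤,
      HasDensity D.q D.d D.deg {s | ∀ i, Semisimple (ρ i (D.frob s)) ∧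
        ∀ α, FullMultiplicity (ρ i (D.frob s)) α} 1] ∧
    ((∀ i, ∃ s, ScalarPower (ρ i (D.frob s))) →
      HasDensity D.q D.d D.deg {s | ∀ i, Semisimple (ρ i (D.frob s)) ∧
        ∀ α, FullMultiplicity (ρ i (D.frob s)) α} 1) :=
  main D ℓ b ρ hρ hgeom a ha

end Pool.Agent.Results.MP_1fe969_ag.ZeroOneSurfaces
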